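import Pool.Agent.Lib.MP_610fe3_an.T7.Spec
import Pool.Agent.Lib.MP_610fe3_an.T6.Basic
import Pool.Agent.Lib.MP_610fe3_an.T6.Start

/-!
# Module PATHJ: the dynamical John path (helper98)
-/

open Set Filter Function Metric
open scoped Topology

namespace Pool.Agent.Lib.MP610fe3.T7

open Cf H6 T4 T6

universe v

namespace PathJ

variable {M : Type v} [MetricSpace M] [CompactSpace M] {f : M ≃ₜ M} {u : ℕ}
  {φ : M → EuclideanSpace ℝ (Fin u) → M} {C a b κ r r₁ e ρ : ℝ} {A : Set M}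

/-- Position `(α, β)`. -/
def Pos (f : M ≃ₜ M) (A : Set M) (r α β : ℝ) (z : M) : Prop :=
  Free f A r α z ∧ ∃ ζ ∈ Wl f.symm β z, ζ ∉ basin f A r

theorem iter_basin (hA : Attr f A r) (n : ℕ) (x : M) : f^[n] x ∈ basin f A r ↔ x ∈ basin f A r :=
  BasM.iter_mem (BasM.inv hA) n x

theorem symm_iter_basin (hA : Attr f A r) (n : ℕ) (x : M) :
    f.symm^[n] x ∈ basin f A r ↔ x ∈ basin f A r :=
  BasM.symm_iter_mem (BasM.inv hA) n x

/-- Forward image of a small unstable set. -/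
theorem wl_forward (S : Sys f u φ C a b κ r r₁ e ρ) {x z : M} {t : ℝ} (h : z ∈ Wl f.symm t x)
    (k : ℕ) : f^[k] z ∈ Wl f.symm (C ^ k * t) (f^[k] x) := by
  have hC := S.C1
  have ht := Wl_nonneg h
  refine Wl_of_iter (n := k) ?_ fun j hj => ?_
  · rw [Cf.symm_iterate_iterate, Cf.symm_iterate_iterate]
    refine Wl_mono ?_ h
    have : (1 : ℝ) ≤ C ^ k := one_le_pow₀ hC
    nlinarith
  · rw [symm_iterate_iterate_of_le f hj.le, symm_iterate_iterate_of_le f hj.le]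
    refine (S.lip_iter z x (k - j)).trans ?_
    have h1 : C ^ (k - j) ≤ C ^ k := pow_le_pow_right₀ hC (Nat.sub_le _ _)
    have h2 := Wl_dist h
    have h3 : (0 : ℝ) ≤ C ^ k := by positivity
    exact mul_le_mul h1 h2 dist_nonneg h3

/-- Free discs grow. -/
theorem free_forward (S : Sys f u φ C a b κ r r₁ e ρ) (hA : Attr f A r) {z : M} {t T : ℝ}
    (h : Free f A r t z) (hT : T ≤ r) {k : ℕ} (hk : C * Real.exp (-(a * k)) * T ≤ t) :
    Free f A r T (f^[k] z) := by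
  intro w hw
  have hC := S.C1
  have h1 : f.symm^[k] w ∈ Wl f.symm t z := by
    intro n
    have h2 := S.dec_un (Wl_mono hT hw) (n + k)
    rw [iterate_add_apply, iterate_add_apply, Cf.symm_iterate_iterate] at h2
    refine h2.trans (le_trans ?_ hk)
    have h3 : Real.exp (-(a * ((n + k : ℕ) : ℝ))) ≤ Real.exp (-(a * k)) := by
      apply Real.exp_le_exp.2
      push_cast
      have : 0 ≤ a * (n : ℝ) := mul_nonneg S.a_pos.le (Nat.cast_nonneg _)
      linarith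
    have h4 := Wl_dist hw
    gcongr
  exact (symm_iter_basin hA k w).1 (h h1)

theorem Free.mono {t t' : ℝ} {z : M} (h : Free f A r t z) (ht : t' ≤ t) : Free f A r t' z :=
  (Wl_mono ht).trans h

/-- The points of a segment in a disc, of a bounded number. -/
theorem seg (S : Sys f u φ C a b κ r r₁ e ρ) {ρ' L : ℝ} {P₀ : ℕ} (hP : 0 < P₀)
    (hL : C ^ 2 * L ≤ e) (hP' : C ^ 2 * L ≤ ρ' * P₀) (z : M)
    {s : EuclideanSpace ℝ (Fin u)} (hs : s ∈ closedBall (0 : EuclideanSpace ℝ (Fin u)) (ρ / 2))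
    (hsL : ‖s‖ ≤ L) {τ : ℝ} (hτ : 0 ≤ τ) (hτ1 : τ ≤ 1) {i : ℕ} (hi : i < P₀) :
    φ z ((τ * ((i + 1 : ℕ) / P₀)) • s) ∈ Wl f.symm (4 * e) (φ z ((τ * (i / P₀)) • s)) ∧
    ∃ s' ∈ closedBall (0 : EuclideanSpace ℝ (Fin u)) ρ',
      φ z ((τ * ((i + 1 : ℕ) / P₀)) • s) = φ (φ z ((τ * (i / P₀)) • s)) s' := by
  have hC := S.C1
  have hC0 : 0 < C := by linarith
  have he := S.e_pos
  have hρ := S.ρ_pos
  have hP0 : (0 : ℝ) < P₀ := by exact_mod_cast hP
  have hsn : ‖s‖ ≤ ρ / 2 := by simpa using hs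
  have hmem : ∀ c : ℝ, 0 ≤ c → c ≤ 1 →
      c • s ∈ closedBall (0 : EuclideanSpace ℝ (Fin u)) ρ := by
    intro c h0 h1
    rw [mem_closedBall_zero_iff, norm_smul, Real.norm_eq_abs, abs_of_nonneg h0]
    nlinarith [norm_nonneg s]
  have hi0 : (i : ℝ) / P₀ ≤ 1 := by
    rw [div_le_one hP0]
    exact_mod_cast hi.le
  have hi1 : ((i + 1 : ℕ) : ℝ) / P₀ ≤ 1 := by
    rw [div_le_one hP0]
    exact_mod_cast hi
  have hc0 : 0 ≤ τ * ((i : ℝ) / P₀) := by positivity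
  have hc0' : τ * ((i : ℝ) / P₀) ≤ 1 := by
    have : (0 : ℝ) ≤ (i : ℝ) / P₀ := by positivity
    nlinarith
  have hc1 : 0 ≤ τ * (((i + 1 : ℕ) : ℝ) / P₀) := by positivity
  have hc1' : τ * (((i + 1 : ℕ) : ℝ) / P₀) ≤ 1 := by
    have : (0 : ℝ) ≤ ((i + 1 : ℕ) : ℝ) / P₀ := by positivity
    nlinarith
  have hd : dist (φ z ((τ * (((i + 1 : ℕ) : ℝ) / P₀)) • s)) (φ z ((τ * ((i : ℝ) / P₀)) • s)) ≤
      C * (L / P₀) := by
    refine (S.upper z _ (hmem _ hc1 hc1') _ (hmem _ hc0 hc0')).trans ?_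
    rw [dist_eq_norm, ← sub_smul, norm_smul, Real.norm_eq_abs]
    have h1 : τ * (((i + 1 : ℕ) : ℝ) / P₀) - τ * ((i : ℝ) / P₀) = τ / P₀ := by
      push_cast
      ring
    rw [h1, abs_of_nonneg (by positivity)]
    have h2 : τ / P₀ * ‖s‖ ≤ 1 / P₀ * L := by gcongr
    calc C * (τ / P₀ * ‖s‖) ≤ C * (1 / P₀ * L) := by gcongr
      _ = _ := by ring
  have hL0 : 0 ≤ L := (norm_nonneg s).trans hsL
  have hw : φ z ((τ * (((i + 1 : ℕ) : ℝ) / P₀)) • s) ∈
      Wl f.symm r (φ z ((τ * ((i : ℝ) / P₀)) • s)) := by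
    refine Wl_mono ?_ (Wl_trans (Wl_comm (S.mem z _ (hmem _ hc0 hc0')))
      (S.mem z _ (hmem _ hc1 hc1')))
    linarith [S.r_pos]
  have h4 : φ z ((τ * (((i + 1 : ℕ) : ℝ) / P₀)) • s) ∈
      Wl f.symm (4 * e) (φ z ((τ * ((i : ℝ) / P₀)) • s)) := by
    refine S.wl_un hw ?_
    have h5 : L / P₀ ≤ L := div_le_self hL0 (by exact_mod_cast hP)
    calc C * dist (φ z ((τ * (((i + 1 : ℕ) : ℝ) / P₀)) • s)) (φ z ((τ * ((i : ℝ) / P₀)) • s)) ≤
        C * (C * (L / P₀)) := by gcongr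
      _ ≤ C * (C * L) := by gcongr
      _ = C ^ 2 * L := by ring
      _ ≤ 4 * e := by linarith
  obtain ⟨s', hs', hn, hφ⟩ := S.onto_small h4
  refine ⟨h4, s', ?_, hφ.symm⟩
  rw [mem_closedBall_zero_iff]
  calc ‖s'‖ ≤ C * dist (φ z ((τ * (((i + 1 : ℕ) : ℝ) / P₀)) • s))
        (φ z ((τ * ((i : ℝ) / P₀)) • s)) := hn
    _ ≤ C * (C * (L / P₀)) := by gcongr
    _ = C ^ 2 * L / P₀ := by ring
    _ ≤ ρ' := by rwa [div_le_iff₀ hP0]

/-- The nearest point outside of the basin. -/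
theorem nearest (S : Sys f u φ C a b κ r r₁ e ρ) (hA : Attr f A r) {z ζ : M} {t : ℝ}
    (ht : t ≤ 4 * e) (hζ : ζ ∈ Wl f.symm t z) (hζ' : ζ ∉ basin f A r) :
    ∃ s ∈ closedBall (0 : EuclideanSpace ℝ (Fin u)) (ρ / 2), ‖s‖ ≤ C * t ∧
      φ z s ∉ basin f A r ∧
      ∀ s' ∈ closedBall (0 : EuclideanSpace ℝ (Fin u)) (ρ / 2), ‖s'‖ < ‖s‖ →
        φ z s' ∈ basin f A r := by
  have hC := S.C1
  have hC0 : 0 < C := by linarith
  have hρ := S.ρ_pos
  obtain ⟨s₀, hs₀, hn₀, rfl⟩ := S.onto_small (Wl_mono ht hζ)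
  set K : Set (EuclideanSpace ℝ (Fin u)) :=
    {s | s ∈ closedBall 0 (ρ / 2) ∧ φ z s ∉ basin f A r} with hK
  have hcont : ContinuousOn (φ z) (closedBall 0 (ρ / 2)) := by
    refine LipschitzOnWith.continuousOn (K := ⟨C, hC0.le⟩) ?_
    refine LipschitzOnWith.of_dist_le_mul fun s hs t ht => ?_
    exact S.upper z s (closedBall_subset_closedBall (by linarith) hs) t
      (closedBall_subset_closedBall (by linarith) ht)
  have hKcl : IsClosed K :=
    hcont.preimage_isClosed_of_isClosed isClosed_closedBall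
      (StartM.isOpen_basin (FreeM.hyp S) hA).isClosed_compl
  have hKc : IsCompact K :=
    (isCompact_closedBall _ (ρ / 2)).of_isClosed_subset hKcl fun s hs => hs.1
  obtain ⟨s, hs, hmin⟩ := hKc.exists_isMinOn ⟨s₀, hs₀, hζ'⟩ continuous_norm.continuousOn
  refine ⟨s, hs.1, ?_, hs.2, fun s' hs' hlt => ?_⟩
  · have h1 : ‖s‖ ≤ ‖s₀‖ := hmin ⟨hs₀, hζ'⟩
    have h2 := Wl_dist hζ
    calc ‖s‖ ≤ ‖s₀‖ := h1
      _ ≤ C * dist (φ z s₀) z := hn₀
      _ ≤ C * t := by gcongr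
  · by_contra hcon
    have h1 : ‖s‖ ≤ ‖s'‖ := hmin ⟨hs', hcon⟩
    linarith

/-- Points of the segment to the nearest point outside of the basin are free. -/
theorem free_seg (S : Sys f u φ C a b κ r r₁ e ρ) {z : M} {s : EuclideanSpace ℝ (Fin u)}
    (hs : s ∈ closedBall (0 : EuclideanSpace ℝ (Fin u)) (ρ / 2))
    (hmin : ∀ s' ∈ closedBall (0 : EuclideanSpace ℝ (Fin u)) (ρ / 2), ‖s'‖ < ‖s‖ →
        φ z s' ∈ basin f A r) (hsL : C ^ 2 * ‖s‖ ≤ e) {τ t : ℝ} (hτ : 0 ≤ τ) (hτ1 : τ ≤ 1)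
    (ht : t ≤ e) (ht' : 0 < t) (htd : 2 * C * t ≤ (1 - τ) * ‖s‖) : Free f A r t (φ z (τ • s)) := by
  intro w hw
  have hC := S.C1
  have hρ := S.ρ_pos
  have hsn : ‖s‖ ≤ ρ / 2 := by simpa using hs
  have hτs : ‖τ • s‖ ≤ ‖s‖ := by
    rw [norm_smul, Real.norm_eq_abs, abs_of_nonneg hτ]
    nlinarith [norm_nonneg s]
  have hmem : τ • s ∈ closedBall (0 : EuclideanSpace ℝ (Fin u)) ρ := by
    rw [mem_closedBall_zero_iff]
    linarith
  have h1 : φ z (τ • s) ∈ Wl f.symm e z := S.mem_small z hmem (by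
    have : C ^ 2 * ‖τ • s‖ ≤ C ^ 2 * ‖s‖ := by gcongr
    linarith)
  have h2 : w ∈ Wl f.symm (4 * e) z := Wl_mono (by linarith [S.e_pos]) (Wl_trans h1 hw)
  obtain ⟨s', hs', hn, rfl⟩ := S.onto_small h2
  refine hmin s' hs' ?_
  have h3 : dist s' (τ • s) ≤ C * t := by
    refine (S.lower z s' (closedBall_subset_closedBall (by linarith) hs') _ hmem).trans ?_
    have := Wl_dist hw
    gcongr
  have h4 : ‖s'‖ ≤ dist s' (τ • s) + τ * ‖s‖ := by
    have h5 : ‖s'‖ ≤ ‖s' - τ • s‖ + ‖τ • s‖ := by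
      have := norm_add_le (s' - τ • s) (τ • s)
      rwa [sub_add_cancel] at this
    rw [dist_eq_norm]
    rwa [norm_smul, Real.norm_eq_abs, abs_of_nonneg hτ] at h5
  have h5 : 0 < C * t := by positivity
  nlinarith

/-- One block of the path. -/
theorem block (S : Sys f u φ C a b κ r r₁ e ρ) (hA : Attr f A r) {β ε₁ ρ' : ℝ} {k₀ P₀ : ℕ}
    (hP : 0 < P₀) (hε₁ : 0 < ε₁) (hβ : C ^ 3 * β ≤ e) (hk₀ : 2 * C ^ 2 * Real.exp (-(a * k₀)) ≤ 1)
    (hε₁β : C ^ k₀ * (C ^ 2 * ε₁) ≤ β) (hP' : C ^ 2 * (C * β) ≤ ρ' * P₀) {z : M}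
    (hz : Pos f A r ε₁ β z) :
    ∃ p : ℕ → M, p 0 = z ∧ (∀ i ≤ P₀, Free f A r (ε₁ / (2 * C)) (p i)) ∧
      (∀ i < P₀, p (i + 1) ∈ Wl f.symm (4 * e) (p i) ∧
        ∃ s ∈ closedBall (0 : EuclideanSpace ℝ (Fin u)) ρ', p (i + 1) = φ (p i) s) ∧
      Pos f A r ε₁ β (f^[k₀] (p P₀)) := by
  have hC := S.C1
  have hC0 : 0 < C := by linarith
  have he := S.e_pos
  have hρ := S.ρ_pos
  have her := S.e_le_r
  have hP0 : (0 : ℝ) < P₀ := by exact_mod_cast hP
  obtain ⟨hfree, ζ, hζ, hζ'⟩ := hz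
  have hβ0 := Wl_nonneg hζ
  have hCk : (1 : ℝ) ≤ C ^ k₀ := one_le_pow₀ hC
  have hε₁β' : ε₁ ≤ β := by
    have h1 : (1 : ℝ) ≤ C ^ 2 := one_le_pow₀ hC
    have h2 : ε₁ ≤ C ^ 2 * ε₁ := by nlinarith
    have h3 : C ^ 2 * ε₁ ≤ C ^ k₀ * (C ^ 2 * ε₁) := by
      have : 0 ≤ C ^ 2 * ε₁ := by positivity
      nlinarith
    linarith
  have hβe : β ≤ e := by
    have h1 : (1 : ℝ) ≤ C ^ 3 := one_le_pow₀ hC
    nlinarith
  obtain ⟨s, hs, hsn, hsζ, hmin⟩ := nearest S hA (by linarith) hζ hζ'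
  have hs2 : C ^ 2 * ‖s‖ ≤ e := by
    calc C ^ 2 * ‖s‖ ≤ C ^ 2 * (C * β) := by gcongr
      _ = C ^ 3 * β := by ring
      _ ≤ e := hβ
  have hsρ : ‖s‖ ≤ ρ / 2 := by simpa using hs
  -- the parameter
  obtain ⟨τ, hτ0, hτ1, hτA, hτB⟩ : ∃ τ : ℝ, 0 ≤ τ ∧ τ ≤ 1 ∧ (1 - τ) * ‖s‖ ≤ ε₁ ∧
      (τ = 0 ∨ ε₁ ≤ (1 - τ) * ‖s‖) := by
    rcases le_or_gt ‖s‖ ε₁ with h | h
    · exact ⟨0, le_rfl, zero_le_one, by simpa using h, Or.inl rfl⟩
    · have hs0 : 0 < ‖s‖ := by linarith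
      have h1 : ε₁ / ‖s‖ ≤ 1 := by
        rw [div_le_one hs0]
        exact h.le
      have h2 : (1 - (1 - ε₁ / ‖s‖)) * ‖s‖ = ε₁ := by
        field_simp
        ring
      refine ⟨1 - ε₁ / ‖s‖, by linarith, ?_, h2.le, Or.inr h2.ge⟩
      have : 0 ≤ ε₁ / ‖s‖ := by positivity
      linarith
  have hε₁C : ε₁ / (2 * C) ≤ ε₁ := div_le_self hε₁.le (by linarith)
  have hfr : ∀ c : ℝ, 0 ≤ c → c ≤ 1 → Free f A r (ε₁ / (2 * C)) (φ z ((τ * c) • s)) := by
    intro c hc0 hc1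
    rcases hτB with h | h
    · subst h
      rw [zero_mul, zero_smul, S.zero]
      exact Free.mono hfree hε₁C
    · refine free_seg S hs hmin hs2 (by positivity) (by nlinarith) (by linarith) (by positivity) ?_
      have h1 : 2 * C * (ε₁ / (2 * C)) = ε₁ := by field_simp
      rw [h1]
      have h2 : (1 - τ) * ‖s‖ ≤ (1 - τ * c) * ‖s‖ := by
        have : τ * c ≤ τ := by nlinarith
        have h3 := norm_nonneg s
        nlinarith
      linarith
  refine ⟨fun i => φ z ((τ * ((i : ℝ) / P₀)) • s), by simp [S.zero], fun i hi => ?_,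
    fun i hi => ?_, ?_, ?_⟩
  · refine hfr _ (by positivity) ?_
    rw [div_le_one hP0]
    exact_mod_cast hi
  · have hL : C ^ 2 * (C * β) ≤ e := by
      calc C ^ 2 * (C * β) = C ^ 3 * β := by ring
        _ ≤ e := hβ
    exact seg S hP hL hP' z hs hsn hτ0 hτ1 hi
  · -- freeness at the end
    have h1 := hfr 1 zero_le_one le_rfl
    simp only [div_self hP0.ne'] at h1 ⊢
    refine free_forward S hA h1 (by linarith) ?_
    have h2 : C * Real.exp (-(a * k₀)) ≤ 1 / (2 * C) := by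
      rw [le_div_iff₀ (by positivity)]
      calc C * Real.exp (-(a * k₀)) * (2 * C) = 2 * C ^ 2 * Real.exp (-(a * k₀)) := by ring
        _ ≤ 1 := hk₀
    calc C * Real.exp (-(a * k₀)) * ε₁ ≤ 1 / (2 * C) * ε₁ := by gcongr
      _ = ε₁ / (2 * C) := by ring
  · -- the point outside of the basin
    simp only [div_self hP0.ne', mul_one]
    refine ⟨f^[k₀] (φ z s), ?_, fun h => hsζ ((iter_basin hA k₀ _).1 h)⟩
    have hmem : s ∈ closedBall (0 : EuclideanSpace ℝ (Fin u)) ρ :=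
      closedBall_subset_closedBall (by linarith) hs
    have hτs : ‖τ • s‖ ≤ ‖s‖ := by
      rw [norm_smul, Real.norm_eq_abs, abs_of_nonneg hτ0]
      nlinarith [norm_nonneg s]
    have hmem' : τ • s ∈ closedBall (0 : EuclideanSpace ℝ (Fin u)) ρ := by
      rw [mem_closedBall_zero_iff]
      linarith
    have h1 : φ z s ∈ Wl f.symm (C ^ 2 * ε₁) (φ z (τ • s)) := by
      refine S.wl_un (Wl_mono (by linarith [S.r_pos])
        (Wl_trans (Wl_comm (S.mem z _ hmem')) (S.mem z _ hmem))) ?_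
      have h2 := S.upper z s hmem _ hmem'
      have h3 : dist s (τ • s) = (1 - τ) * ‖s‖ := by
        have e1 : s - τ • s = (1 - τ) • s := by rw [sub_smul, one_smul]
        rw [dist_eq_norm, e1, norm_smul, Real.norm_eq_abs, abs_of_nonneg (by linarith)]
      rw [h3] at h2
      calc C * dist (φ z s) (φ z (τ • s)) ≤ C * (C * ((1 - τ) * ‖s‖)) := by gcongr
        _ ≤ C * (C * ε₁) := by gcongr
        _ = C ^ 2 * ε₁ := by ring
    exact Wl_mono hε₁β (wl_forward S h1 k₀)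

/-- The start of the path. -/
theorem start [ConnectedSpace M] (S : Sys f u φ C a b κ r r₁ e ρ)
    (hA : Attr f A r) (hne : basin f A r ≠ univ) {β ε₁ : ℝ} {k₀ : ℕ} (hε₁ : 0 < ε₁)
    (hβ : C ^ 3 * β ≤ e) (hk₀ : 2 * C ^ 2 * Real.exp (-(a * k₀)) ≤ 1)
    (hε₁β : C ^ k₀ * (C ^ 2 * ε₁) ≤ β) : ∃ z, Pos f A r ε₁ β z := by
  have hC := S.C1
  have hC0 : 0 < C := by linarith
  have he := S.e_pos
  have hρ := S.ρ_pos
  have her := S.e_le_r
  have ha := S.a_pos
  have hCk : (1 : ℝ) ≤ C ^ k₀ := one_le_pow₀ hC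
  have hC2 : (1 : ℝ) ≤ C ^ 2 := one_le_pow₀ hC
  have hε₁β' : C ^ k₀ * ε₁ ≤ β := by
    refine le_trans ?_ hε₁β
    gcongr
    nlinarith
  have hβ0 : 0 < β := lt_of_lt_of_le (by positivity) hε₁β
  have hε₁β'' : ε₁ ≤ β := by
    have : ε₁ ≤ C ^ k₀ * ε₁ := by nlinarith
    linarith
  have hβe : β ≤ e := by
    have h1 : (1 : ℝ) ≤ C ^ 3 := one_le_pow₀ hC
    nlinarith
  obtain ⟨y, d, s, hd, hd₀, hsd, hys, hball⟩ := specStart f u φ C a b κ r r₁ e ρ A S hA hne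
    (min (β / C ^ 2) (ρ / 2)) (by positivity)
  have hdβ : C ^ 2 * d ≤ β := by
    have h1 : d ≤ β / C ^ 2 := hd₀.trans (min_le_left _ _)
    rw [le_div_iff₀ (by positivity)] at h1
    linarith
  have hdρ : d ≤ ρ / 2 := hd₀.trans (min_le_right _ _)
  -- the free radius of `y`
  set t₀ : ℝ := min (d / (2 * C)) e with ht₀
  have ht₀0 : 0 < t₀ := by positivity
  have hy0 : Free f A r t₀ y := by
    intro w hw
    obtain ⟨s', hs', hn, rfl⟩ := S.onto_small (Wl_mono (by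
      have : t₀ ≤ e := min_le_right _ _
      linarith) hw)
    refine hball s' ?_
    rw [mem_ball_zero_iff]
    have h1 := Wl_dist hw
    have h2 : t₀ ≤ d / (2 * C) := min_le_left _ _
    calc ‖s'‖ ≤ C * dist (φ y s') y := hn
      _ ≤ C * (d / (2 * C)) := by gcongr; linarith
      _ = d / 2 := by field_simp
      _ < d := by linarith
  have hyζ : φ y s ∈ Wl f.symm β y := by
    refine S.mem_small y ?_ (by rw [hsd]; exact hdβ)
    rw [mem_closedBall_zero_iff]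
    linarith
  -- the free radius becomes large
  have hex : ∃ n : ℕ, Free f A r ε₁ (f^[k₀ * n] y) := by
    have h1 : 0 < k₀ := by
      rcases Nat.eq_zero_or_pos k₀ with h | h
      · exfalso
        rw [h] at hk₀
        simp at hk₀
        nlinarith
      · exact h
    have h2 : Tendsto (fun n : ℕ => C * Real.exp (-(a * ((k₀ * n : ℕ) : ℝ))) * ε₁) atTop
        (𝓝 (C * 0 * ε₁)) := by
      refine Tendsto.mul_const _ (Tendsto.const_mul _ ?_)
      refine Real.tendsto_exp_neg_atTop_nhds_zero.comp ?_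
      refine Tendsto.const_mul_atTop ha (tendsto_natCast_atTop_atTop.comp ?_)
      exact tendsto_id.const_mul_atTop' h1
    rw [mul_zero, zero_mul] at h2
    obtain ⟨n, hn⟩ := (h2.eventually_le_const ht₀0).exists
    exact ⟨n, free_forward S hA hy0 (by linarith) hn⟩
  classical
  have hfree := Nat.find_spec hex
  rcases Nat.eq_zero_or_pos (Nat.find hex) with h0 | h0
  · rw [h0] at hfree
    exact ⟨y, by simpa using hfree, φ y s, hyζ, hys⟩
  · obtain ⟨n, hn⟩ : ∃ n, Nat.find hex = n + 1 := ⟨Nat.find hex - 1, by omega⟩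
    have hnot := Nat.find_min hex (m := n) (by omega)
    rw [hn] at hfree
    refine ⟨_, hfree, ?_⟩
    unfold Free at hnot
    rw [Set.not_subset] at hnot
    obtain ⟨w, hw, hwB⟩ := hnot
    refine ⟨f^[k₀] w, ?_, fun h => hwB ((iter_basin hA k₀ _).1 h)⟩
    have h1 := wl_forward S hw k₀
    rw [← iterate_add_apply, show k₀ + k₀ * n = k₀ * (n + 1) by ring] at h1
    exact Wl_mono hε₁β' h1

end PathJ

open PathJ

/-- **Module PATHJ.** -/
theorem specPathJ : SpecPathJ.{v} := by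
  intro M _ _ _ f u φ C a b κ r r₁ e ρ A S hA hne R hR
  have hC := S.C1
  have hC0 : 0 < C := by linarith
  have he := S.e_pos
  have hρ := S.ρ_pos
  have her := S.e_le_r
  have ha := S.a_pos
  obtain ⟨k₀, hk₀⟩ : ∃ k₀ : ℕ, 2 * C ^ 2 * Real.exp (-(a * k₀)) ≤ 1 := by
    have h2 : Tendsto (fun n : ℕ => 2 * C ^ 2 * Real.exp (-(a * n))) atTop
        (𝓝 (2 * C ^ 2 * 0)) := by
      refine Tendsto.const_mul _ (Real.tendsto_exp_neg_atTop_nhds_zero.comp ?_)
      exact Tendsto.const_mul_atTop ha tendsto_natCast_atTop_atTop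
    rw [mul_zero] at h2
    exact (h2.eventually_le_const one_pos).exists
  have hk₀0 : 0 < k₀ := by
    rcases Nat.eq_zero_or_pos k₀ with h | h
    · exfalso
      rw [h] at hk₀
      simp at hk₀
      nlinarith
    · exact h
  set β : ℝ := e / C ^ 3 with hβdef
  have hβ0 : 0 < β := by positivity
  have hβ : C ^ 3 * β ≤ e := by
    rw [hβdef]
    field_simp
    exact le_rfl
  set ε₁ : ℝ := β / (C ^ k₀ * C ^ 2) with hε₁def
  have hε₁ : 0 < ε₁ := by positivity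
  have hε₁β : C ^ k₀ * (C ^ 2 * ε₁) ≤ β := by
    rw [hε₁def]
    field_simp
    exact le_rfl
  refine ⟨ε₁ / (2 * C) / R, by positivity, fun η ρ' hη hη₀ hρ' => ?_⟩
  have hRη : R * η ≤ ε₁ / (2 * C) := by
    rw [le_div_iff₀ hR] at hη₀
    linarith
  obtain ⟨P₀, hP₀⟩ : ∃ P₀ : ℕ, C ^ 2 * (C * β) / ρ' ≤ P₀ := exists_nat_ge _
  set P : ℕ := P₀ + 1 with hPdef
  have hP : 0 < P := by omega
  have hP' : C ^ 2 * (C * β) ≤ ρ' * P := by
    rw [div_le_iff₀ hρ'] at hP₀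
    rw [hPdef]
    push_cast
    nlinarith
  obtain ⟨z₀, hz₀⟩ := start S hA hne hε₁ hβ hk₀ hε₁β
  -- the blocks
  choose! pth h0 hfree hstep hend using
    fun (z : M) (hz : Pos f A r ε₁ β z) => block S hA hP hε₁ hβ hk₀ hε₁β hP' hz
  set c : ℕ → M := fun n => Nat.rec z₀ (fun _ z => f^[k₀] (pth z P)) n with hc
  have hcs : ∀ n, c (n + 1) = f^[k₀] (pth (c n) P) := fun n => rfl
  have hcP : ∀ n, Pos f A r ε₁ β (c n) := by
    intro n
    induction n with
    | zero => exact hz₀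
    | succ n ih => rw [hcs]; exact hend _ ih
  set x : ℕ → M := fun j => f.symm^[k₀ * (j / P)] (pth (c (j / P)) (j % P)) with hx
  have hxt : ∀ j, f^[k₀ * (j / P)] (x j) = pth (c (j / P)) (j % P) := fun j =>
    iterate_symm_iterate f _ _
  have hxs : ∀ j, f^[k₀ * (j / P)] (x (j + 1)) = pth (c (j / P)) (j % P + 1) := by
    intro j
    have hlt : j % P < P := Nat.mod_lt _ hP
    rcases Nat.lt_or_ge (j % P + 1) P with h | h
    · have h5 : j + 1 = P * (j / P) + (j % P + 1) := by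
        have := Nat.div_add_mod j P
        omega
      have h1 : (j + 1) / P = j / P := by
        conv_lhs => rw [h5]
        rw [Nat.mul_add_div hP, Nat.div_eq_of_lt h, add_zero]
      have h2 : (j + 1) % P = j % P + 1 := by
        conv_lhs => rw [h5]
        rw [Nat.mul_add_mod, Nat.mod_eq_of_lt h]
      simp only [hx, h1, h2, iterate_symm_iterate]
    · have h1 : j % P + 1 = P := by omega
      have h3 := Nat.div_add_mod j P
      have h5 : j + 1 = P * (j / P + 1) := by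
        have : P * (j / P + 1) = P * (j / P) + P := by ring
        omega
      have h2 : (j + 1) / P = j / P + 1 := by
        rw [h5, Nat.mul_div_cancel_left _ hP]
      have h4 : (j + 1) % P = 0 := by
        rw [h5, Nat.mul_mod_right]
      simp only [hx, h2, h4, h1]
      rw [h0 _ (hcP (j / P + 1)), hcs, show k₀ * (j / P + 1) = k₀ * (j / P) + k₀ by ring,
        iterate_add_apply, Cf.symm_iterate_iterate, iterate_symm_iterate]
  have hj : ∀ j : ℕ, Free f A r (R * η) (f^[k₀ * (j / P)] (x j)) ∧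
      ∃ s ∈ closedBall (0 : EuclideanSpace ℝ (Fin u)) ρ',
        f^[k₀ * (j / P)] (x (j + 1)) = φ (f^[k₀ * (j / P)] (x j)) s := by
    intro j
    have hlt : j % P < P := Nat.mod_lt _ hP
    rw [hxt, hxs]
    exact ⟨Free.mono (hfree _ (hcP _) _ hlt.le) hRη, (hstep _ (hcP _) _ hlt).2⟩
  -- the limit
  set ν : ℝ := Real.exp (-(a * k₀ / P)) with hν
  have hPr : (0 : ℝ) < P := by exact_mod_cast hP
  have hk₀r : (0 : ℝ) < k₀ := by exact_mod_cast hk₀0
  have hν1 : ν < 1 := by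
    rw [hν, Real.exp_lt_one_iff]
    have : 0 < a * k₀ / P := by positivity
    linarith
  have hdist : ∀ j, dist (x j) (x (j + 1)) ≤ C * Real.exp (a * k₀) * r * ν ^ j := by
    intro j
    have hlt : j % P < P := Nat.mod_lt _ hP
    have h1 : x (j + 1) = f.symm^[k₀ * (j / P)] (pth (c (j / P)) (j % P + 1)) := by
      rw [← hxs j, Cf.symm_iterate_iterate]
    have h3 : pth (c (j / P)) (j % P + 1) ∈ Wl f.symm r (pth (c (j / P)) (j % P)) :=
      Wl_mono (by linarith) (hstep _ (hcP (j / P)) _ hlt).1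
    have h4 := S.dec_un h3 (k₀ * (j / P))
    rw [dist_comm, h1]
    refine h4.trans ?_
    have h5 := Wl_dist h3
    have h6 : Real.exp (-(a * ((k₀ * (j / P) : ℕ) : ℝ))) ≤ Real.exp (a * k₀) * ν ^ j := by
      rw [hν, ← Real.exp_nat_mul, ← Real.exp_add]
      apply Real.exp_le_exp.2
      have h7 : (j : ℝ) / P ≤ (j / P : ℕ) + 1 := by
        rw [div_le_iff₀ hPr]
        have h8 : j < P * (j / P) + P := by
          have := Nat.div_add_mod j P
          omega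
        have h9 : (j : ℝ) < P * ((j / P : ℕ) : ℝ) + P := by exact_mod_cast h8
        linarith
      have h8 : a * k₀ * ((j : ℝ) / P) ≤ a * k₀ * ((j / P : ℕ) + 1) := by gcongr
      have h9 : (j : ℝ) * (-(a * k₀ / P)) = -(a * k₀ * ((j : ℝ) / P)) := by ring
      rw [h9]
      push_cast
      push_cast at h8
      linarith
    calc C * Real.exp (-(a * ((k₀ * (j / P) : ℕ) : ℝ))) *
          dist (pth (c (j / P)) (j % P + 1)) (pth (c (j / P)) (j % P)) ≤
        C * (Real.exp (a * k₀) * ν ^ j) * r := by gcongr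
      _ = _ := by ring
  have hcau : CauchySeq x := cauchySeq_of_le_geometric ν _ hν1 hdist
  obtain ⟨y, hy⟩ := cauchySeq_tendsto_of_complete hcau
  refine ⟨k₀, P, x, y, hk₀0, hP, hj, hy, ?_⟩
  choose ζ hζ hζ' using fun n => (hcP n).2
  have hxn : ∀ n, x (P * n) = f.symm^[k₀ * n] (c n) := by
    intro n
    simp only [hx, Nat.mul_div_cancel_left _ hP, Nat.mul_mod_right]
    rw [h0 _ (hcP n)]
  have hβr : β ≤ r := by
    have h1 : (1 : ℝ) ≤ C ^ 3 := one_le_pow₀ hC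
    have : β ≤ e := by nlinarith
    linarith
  have h1 : Tendsto (fun n => dist (f.symm^[k₀ * n] (ζ n)) (x (P * n))) atTop (𝓝 0) := by
    have h2 : Tendsto (fun n : ℕ => C * Real.exp (-(a * ((k₀ * n : ℕ) : ℝ))) * β) atTop
        (𝓝 (C * 0 * β)) := by
      refine Tendsto.mul_const _ (Tendsto.const_mul _ ?_)
      refine Real.tendsto_exp_neg_atTop_nhds_zero.comp ?_
      refine Tendsto.const_mul_atTop ha (tendsto_natCast_atTop_atTop.comp ?_)
      exact tendsto_id.const_mul_atTop' hk₀0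
    rw [mul_zero, zero_mul] at h2
    refine squeeze_zero (fun _ => dist_nonneg) (fun n => ?_) h2
    rw [hxn]
    have h3 := Wl_dist (hζ n)
    exact (S.dec_un (Wl_mono hβr (hζ n)) (k₀ * n)).trans (by gcongr)
  have h2 : Tendsto (fun n => x (P * n)) atTop (𝓝 y) :=
    hy.comp (tendsto_id.const_mul_atTop' hP)
  have h3 : Tendsto (fun n => f.symm^[k₀ * n] (ζ n)) atTop (𝓝 y) := by
    rw [tendsto_iff_dist_tendsto_zero] at h2 ⊢
    have h4 := h1.add h2
    rw [add_zero] at h4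
    exact squeeze_zero (fun _ => dist_nonneg) (fun n => dist_triangle _ _ _) h4
  have h4 : IsClosed (basin f A r)ᶜ := (StartM.isOpen_basin (FreeM.hyp S) hA).isClosed_compl
  exact h4.mem_of_tendsto h3 (Eventually.of_forall fun n h =>
    hζ' n ((symm_iter_basin hA _ _).1 h))

end Pool.Agent.Lib.MP610fe3.T7
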