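import Pool.Agent.Lib.MP_610fe3_an.AC.Spec

/-!
# Nearly conformal unstable bundle, normalised estimate: specification of the modules

THEOREM (T7). Let `f` be a `C^1` Anosov diffeomorphism of a closed connected manifold, `u = dim Eu`,
stable rates in `[s, b]`, unstable rates at least `a`, `κ` the exponential defect of conformality of
`Df` on `Eu`. If `u² κ (b - s) < a s` then `f` is transitive.

Compared with T6 (`u κ (u b - s) < a s`): the key estimate is the normalised one of AC (`EYON`), in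
the basin of the attractor instead of the attractor, and the radial path of T6 is replaced by a
dynamical John path (`PATHJ`), so that `κ < a` is not needed.

Notation of T6: in `Sys` the number `b` is the LOWER STABLE RATE.
-/

open Set Filter Function Metric MeasureTheory
open scoped Topology ENNReal

namespace Pool.Agent.Lib.MP610fe3.T7

open Cf H6 T4 T6

universe v w

/-- Module INRB (as AC.INRON, in the basin). The ladder preserves the basin (`BasM.stab`), so if the
image of the disc, seen at the time `m - l₀`, contains `Wl f.symm η x`, then `x` is free and COUNT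
applies. -/
def SpecInrB : Prop :=
  ∀ {M : Type v} [MetricSpace M] [CompactSpace M] (f : M ≃ₜ M) (u : ℕ)
    (φ : M → EuclideanSpace ℝ (Fin u) → M) (C a b κ r r₁ e ρ η ρ₁ : ℝ) (A : Set M),
    Sys f u φ C a b κ r r₁ e ρ → Attr f A r → Sc C e ρ η ρ₁ →
    ∃ l₀ : ℕ, ∀ (q : ℕ → M) (i m N : ℕ) (w : M), Free f A r (2 * η) w → l₀ ≤ m → m ≤ N →
      i * (C * Real.exp (-(b * N)) * (2 * e)) ≤ η →
      ∀ x, ∃ z ∈ Wl f.symm η x, ∀ s ∈ closedBall (0 : EuclideanSpace ℝ (Fin u)) ρ₁,
        ¬ Lad f e q i (f.symm^[m] (φ w s)) (f.symm^[m - l₀] z)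

/-- Module EYFREE: the normalised key estimate for free discs: AC.EYON with the set `univ` instead of
`A`, T6.specCells instead of CELLSON (`κ` is the defect of `Sys` itself), INRB instead of INRON. -/
def SpecEyFree : Prop :=
  ∀ {M : Type v} [MetricSpace M] [CompactSpace M] (f : M ≃ₜ M) (u : ℕ)
    (φ : M → EuclideanSpace ℝ (Fin u) → M) (C a b κ r r₁ e ρ η ρ₁ : ℝ) (A : Set M),
    Sys f u φ C a b κ r r₁ e ρ → Attr f A r → Sc C e ρ η ρ₁ → 1000 * C ^ 5 * η ≤ e →
    1000 * C ^ 5 * η ≤ ρ → ∃ C₁ : ℝ, 0 < C₁ ∧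
    ∀ (q : ℕ → M) (i m N : ℕ) (w : M), Free f A r (2 * η) w →
      i * (C * Real.exp (-(b * N)) * (2 * e)) ≤ η / (4 * C) → Dom f φ e ρ₁ q i m w →
      ∀ s ∈ closedBall (0 : EuclideanSpace ℝ (Fin u)) (ρ₁ / 2), ∀ t ∈ closedBall 0 (ρ₁ / 2),
      ∀ z z', Lad f e q i (f.symm^[m] (φ w s)) z → Lad f e q i (f.symm^[m] (φ w t)) z' →
        z' ∈ Wl f.symm (C₁ * (N + 1) ^ (u - 1) *
          Real.exp (u ^ 2 * κ * (N - m : ℕ) - a * m)) z

/-- Module PATHJ: the dynamical John path. `x j → y ∉ basin`; the step from `x j` to `x (j + 1)` is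
made at the level `t = k₀ * (j / P₀)` inside a small disc, and `f^t (x j)` is free.

Proof. `Z` = complement of the basin (closed, invariant). Say that `z` in the basin is in position
`(α, β)` if `Wl f.symm α z ⊆ basin` and there is a point of `Z` in `Wl f.symm β z`. Fix `β ≤ 4 e` with
`β ≤` everything needed, then `k₀` with `C² exp (-a k₀) ≤ 1 / 2` (say), then `ε₁ = β / (C^2 L)`,
`L = C^k₀` (a Lipschitz constant of `f^k₀`), and `α` small (`α ≤ ε₁ / C²`, `C² L α ≤ β`). BLOCK: let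
`z` be in position `(α, β)`, let `φ z s_c`, `|s_c| = d`, be a point of `Z` with the least `|s_c|`
(compactness; `onto`, `upper`, `lower`), `z_τ = φ z (τ s_c)`: for `(1 - τ) d > 0` the set
`Wl f.symm ((1 - τ) d / (2 C)) z_τ` is in the basin (points `φ z s'` with `|s'| < d`) and
`φ z s_c ∈ Wl f.symm (C² (1 - τ) d) z_τ`. If `d ≤ ε₁` take `τ_1 = 0`, else `(1 - τ_1) d = ε₁`. Then
`f^k₀ z_(τ_1)` is in position `(α, β)`: if `Wl f.symm t z' ⊆ basin` then
`Wl f.symm (exp (a k₀) t / C) (f^k₀ z') ⊆ basin` (contraction), and `Z` is invariant. The points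
`z_(τ_1 i / P₀)`, `i ≤ P₀`, are free with radius `min α (ε₁ / (2 C)) =: R η₀`, and consecutive ones are at
`φ`-distance `≤ C² ρ / P₀ ≤ ρ'`. START: `T6.specStart` gives a point in the basin with a point of `Z` in
`Wl f.symm β`, and some free radius `> 0`; apply `f^k₀` until the free radius is `≥ α` for the first
time: then it is in position `(α, β)`, since `C² L α ≤ β`. LIMIT: `dist (x j) (x (j+1)) ≤ C² ρ' exp (-a t)`
is summable; the point of `Z` close to `f^t (x j)`, moved back by `f^-t`, converges to the same limit. -/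
def SpecPathJ : Prop :=
  ∀ {M : Type v} [MetricSpace M] [CompactSpace M] [ConnectedSpace M] (f : M ≃ₜ M) (u : ℕ)
    (φ : M → EuclideanSpace ℝ (Fin u) → M) (C a b κ r r₁ e ρ : ℝ) (A : Set M),
    Sys f u φ C a b κ r r₁ e ρ → Attr f A r → basin f A r ≠ univ → ∀ R : ℝ, 0 < R →
    ∃ η₀ : ℝ, 0 < η₀ ∧ ∀ η ρ' : ℝ, 0 < η → η ≤ η₀ → 0 < ρ' →
      ∃ (k₀ P₀ : ℕ) (x : ℕ → M) (y : M), 0 < k₀ ∧ 0 < P₀ ∧
        (∀ j : ℕ, Free f A r (R * η) (f^[k₀ * (j / P₀)] (x j)) ∧
          ∃ s ∈ closedBall (0 : EuclideanSpace ℝ (Fin u)) ρ',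
            f^[k₀ * (j / P₀)] (x (j + 1)) = φ (f^[k₀ * (j / P₀)] (x j)) s) ∧
        Tendsto x atTop (𝓝 y) ∧ y ∉ basin f A r

/-- Module CORE7. Proof. `R = 2 C + 2 + 1 / (1 - exp (-a))`; PATHJ gives `η₀`; choose `η ≤ η₀`, `ρ₁` with
`Sc` and the smallness hypotheses of EYFREE; `C₁` from EYFREE; `x`, `y`, `k₀`, `P₀` from PATHJ with
`ρ' = ρ₁ / 2`. For a large `m`: `q` = the path of T6.specPaths from `f^-m (x 0)` to `A`, with
`K ≤ Λ' exp (b₂ m)` steps of a small size `h₀`; `N = ⌈(b₂ / b) m + c⌉₊`, so that the smallness of `K` holds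
and `E = C' (N + 1)^(u-1) exp (u² κ (N - m : ℕ) - a m) ≤ e / (16 C²)` (`u² κ (b₂ / b - 1) < a`).
`Q` = the set of the points `y_i` of the chains `y_0 = x j`,
`f^(t_j + l) y_(l+1) = φ (f^(t_j + l) y_l) s`, `|s| ≤ ρ₁`, `t_j = k₀ (j / P₀)`. The discs of radius
`2 η` at `f^(t_j + l) y_l` are free, because `f^t_j y_l ∈ Wl f.symm (η / (1 - exp (-a))) (f^t_j (x j))`.
CLAIM (induction on the stage `k ≤ K`): every `f^-m p`, `p ∈ Q`, is the start of a ladder over `q` up to
the stage `k`, whose stage `k` is in `Wl f.symm E (q k)`. The bracket gives the stage `k + 1`; then the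
stages `k + 1` of `f^-m (x j)` and `f^-m (x (j + 1))` differ by `E_(m + t_j)` (EYFREE for the disc at
`f^t_j (x j)`, which is in the domain, because its points are in `Q`), in all by
`P₀ ∑ E_(m + k₀ l) ≤ E / 2`; and the displacement from `x j` to `y_i` is estimated as in AC/JOHN.lean:
the points `f^-(t+l) (φ (f^(t+l) y_l) (τ s))` are in `Q` with discs of the next level, and boundedly
many inner halves join `y_l` to `y_(l+1)`: in all `≤ E / 2`. END: all `f^-m (x j)` are joined to `A` by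
`K` stable `e`-steps (`hA.sat`), a closed condition (T6.CoStage.isClosed_St), so `f^-m y` is in the
basin. Contradiction. -/
def SpecCore7 : Prop :=
  ∀ {M : Type v} [MetricSpace M] [CompactSpace M] [ConnectedSpace M] (f : M ≃ₜ M) (u : ℕ)
    (φ : M → EuclideanSpace ℝ (Fin u) → M) (C a b κ r r₁ e ρ ρs Λ b₂ : ℝ) (A : Set M),
    Sys f u φ C a b κ r r₁ e ρ → Attr f A r → 0 < ρs → 0 ≤ Λ → b ≤ b₂ →
    Slow f ρs r Λ (Real.exp b₂) → u ^ 2 * κ * (b₂ - b) < a * b → basin f A r = univ

end Pool.Agent.Lib.MP610fe3.T7
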