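import Pool.Agent.Lib.MP_610fe3_an.T6.Statement
import Pool.Agent.Lib.MP_610fe3_an.PR.Statement

/-!
# Anosov diffeomorphisms with nearly conformal unstable bundle: definitions of the statement
-/

open Set Filter Function Bundle
open scoped Manifold ContDiff Topology

namespace Pool.Agent.Lib.MP610fe3.T7

section Main

variable {V : Type*} [NormedAddCommGroup V] [NormedSpace ℝ V]
  {M : Type*} [TopologicalSpace M] [ChartedSpace V M]
  [RiemannianBundle (fun x : M => TangentSpace 𝓘(ℝ, V) x)]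

/-- The unstable bundle `Eu` (of dimension `d`) is nearly conformal, relative to the rates. -/
def UniConformal (f : M ≃ₘ^1⟮𝓘(ℝ, V), 𝓘(ℝ, V)⟯ M)
    (Es Eu : ∀ x : M, Submodule ℝ (TangentSpace 𝓘(ℝ, V) x)) : Prop :=
  ∃ (d : ℕ) (C s b a κ : ℝ), 1 ≤ d ∧ (∀ x, Module.finrank ℝ (Eu x) = d) ∧
    0 < s ∧ s ≤ b ∧ 0 < a ∧ 0 ≤ κ ∧ T6.Rates f Es Eu C s b a κ ∧ d ^ 2 * κ * (b - s) < a * s

/-- The unstable bundle `Eu` (of dimension `d`) is nearly conformal at the periodic points, relative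
to the rates at the periodic points. -/
def PerConformal (f : M ≃ₘ^1⟮𝓘(ℝ, V), 𝓘(ℝ, V)⟯ M)
    (Es Eu : ∀ x : M, Submodule ℝ (TangentSpace 𝓘(ℝ, V) x)) : Prop :=
  ∃ (d : ℕ) (s b a κ : ℝ), 1 ≤ d ∧ (∀ x, Module.finrank ℝ (Eu x) = d) ∧
    0 < s ∧ s ≤ b ∧ 0 < a ∧ 0 ≤ κ ∧ PR.PerRates f Es Eu s b a κ ∧ d ^ 2 * κ * (b - s) < a * s

end Main

universe u v

/-- Module MAIN7: the `C^1` theorem, from CORE7 (copy of T6/MainB.lean and T6/MainC.lean; `κ < a` is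
not needed any more, so `exists_kappa` disappears). -/
def SpecMain7 : Prop :=
  ∀ {V : Type u} [NormedAddCommGroup V] [NormedSpace ℝ V] [FiniteDimensional ℝ V]
    {M : Type v} [TopologicalSpace M] [CompactSpace M] [T2Space M] [ConnectedSpace M]
    [ChartedSpace V M] [IsManifold 𝓘(ℝ, V) ∞ M]
    [RiemannianBundle (fun x : M => TangentSpace 𝓘(ℝ, V) x)]
    [IsContinuousRiemannianBundle V (fun x : M => TangentSpace 𝓘(ℝ, V) x)]
    (f : M ≃ₘ^1⟮𝓘(ℝ, V), 𝓘(ℝ, V)⟯ M)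
    (Es Eu : ∀ x : M, Submodule ℝ (TangentSpace 𝓘(ℝ, V) x)),
    Gen.IsAnosovSplitting f Es Eu → UniConformal f Es Eu ∨ UniConformal f.symm Eu Es →
    TopTransitive f

/-- Module PER7: the `C^2` theorem, in terms of the periodic points, from `PR.PER.rates_metric` and
MAIN7 (copy of the end of PR/PER.lean). -/
def SpecPer7 : Prop :=
  ∀ {V : Type u} [NormedAddCommGroup V] [NormedSpace ℝ V] [FiniteDimensional ℝ V]
    {M : Type v} [TopologicalSpace M] [CompactSpace M] [T2Space M] [ConnectedSpace M]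
    [ChartedSpace V M] [IsManifold 𝓘(ℝ, V) ∞ M]
    [RiemannianBundle (fun x : M => TangentSpace 𝓘(ℝ, V) x)]
    [IsContinuousRiemannianBundle V (fun x : M => TangentSpace 𝓘(ℝ, V) x)]
    (f : M ≃ₘ^1⟮𝓘(ℝ, V), 𝓘(ℝ, V)⟯ M), ContMDiff 𝓘(ℝ, V) 𝓘(ℝ, V) 2 f →
    ContMDiff 𝓘(ℝ, V) 𝓘(ℝ, V) 2 f.symm → ∀ (Es Eu : ∀ x : M, Submodule ℝ (TangentSpace 𝓘(ℝ, V) x)),
    Gen.IsAnosovSplitting f Es Eu → PerConformal f Es Eu ∨ PerConformal f.symm Eu Es →
    TopTransitive f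

end Pool.Agent.Lib.MP610fe3.T7
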