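import Pool.Agent.Lib.MP_610fe3_an.T7.Spec
import Pool.Agent.Lib.MP_610fe3_an.AC.JOHN
import Pool.Agent.Lib.MP_610fe3_an.AC.Comb
import Pool.Agent.Lib.MP_610fe3_an.T6.Core
import Pool.Agent.Lib.MP_610fe3_an.T6.Paths

/-!
# Module CORE7: the abstract theorem
-/

open Set Filter Function Metric
open scoped Topology

namespace Pool.Agent.Lib.MP610fe3.T7

open Cf H6 T4 T6 AC.JohnM

universe v

namespace C7M

/-! ### Choice of the times -/

theorem time7 {u : ℕ} {a b b₂ κ : ℝ} (hb : 0 < b) (hb₂ : b ≤ b₂) (hκ : 0 ≤ κ)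
    (h : u ^ 2 * κ * (b₂ - b) < a * b) {A B t : ℝ} (hA : 0 ≤ A) (hB : 0 < B) (ht : 0 < t) :
    ∃ m N : ℕ, B * Real.exp (b₂ * m) * Real.exp (-(b * N)) ≤ 1 ∧
      A * ((N + 1) ^ (u - 1) * Real.exp (u ^ 2 * κ * (N - m : ℕ) - a * m)) ≤ t := by
  set θ : ℝ := b₂ / b with hθ
  have hθ1 : 1 ≤ θ := by rw [hθ, one_le_div hb]; exact hb₂
  set c₀ : ℝ := max (Real.log B / b) 0 with hc₀
  have hc₀0 : 0 ≤ c₀ := le_max_right _ _
  set δ : ℝ := a - u ^ 2 * κ * (θ - 1) with hδ
  have hδ0 : 0 < δ := by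
    have h1 : b * δ = a * b - u ^ 2 * κ * (b₂ - b) := by
      rw [hδ, hθ]
      field_simp
    have h2 : 0 < b * δ := by rw [h1]; linarith
    exact (pos_iff_pos_of_mul_pos h2).1 hb
  set K : ℝ := θ + c₀ + 2 with hK
  have hK0 : 0 ≤ K := by positivity
  obtain ⟨m, hm⟩ := AC.exists_time (u - 1) (K := A * K ^ (u - 1))
    (c := (u : ℝ) ^ 2 * κ * (c₀ + 1)) hδ0 ht
  set N : ℕ := ⌈θ * m + c₀⌉₊ with hN
  have hN1 : θ * m + c₀ ≤ N := Nat.le_ceil _
  have hN2 : (N : ℝ) < θ * m + c₀ + 1 := Nat.ceil_lt_add_one (by positivity)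
  have hmN : m ≤ N := by
    have : (m : ℝ) ≤ N := by
      have : (m : ℝ) ≤ θ * m := le_mul_of_one_le_left (by positivity) hθ1
      linarith
    exact_mod_cast this
  refine ⟨m, N, ?_, ?_⟩
  · have h1 : B ≤ Real.exp (b * c₀) := by
      have : Real.log B ≤ b * c₀ := by
        have h2 : Real.log B / b ≤ c₀ := le_max_left _ _
        rw [div_le_iff₀ hb] at h2
        linarith
      calc B = Real.exp (Real.log B) := (Real.exp_log hB).symm
        _ ≤ _ := Real.exp_le_exp.2 this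
    calc B * Real.exp (b₂ * m) * Real.exp (-(b * N))
        ≤ Real.exp (b * c₀) * Real.exp (b₂ * m) * Real.exp (-(b * N)) := by gcongr
      _ = Real.exp (b * c₀ + b₂ * m - b * N) := by
          rw [← Real.exp_add, ← Real.exp_add]
          ring_nf
      _ ≤ 1 := by
          rw [Real.exp_le_one_iff]
          have h3 : b * (θ * m + c₀) ≤ b * N := by gcongr
          have h4 : b * θ = b₂ := by rw [hθ]; field_simp
          nlinarith
  · refine le_trans ?_ hm
    have hm0 : (0 : ℝ) ≤ m := Nat.cast_nonneg m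
    have h1 : (N : ℝ) + 1 ≤ K * (m + 1) := by
      rw [hK]
      nlinarith
    have h2 : ((N - m : ℕ) : ℝ) ≤ (θ - 1) * m + (c₀ + 1) := by
      rw [Nat.cast_sub hmN]
      linarith
    have h3 : (u : ℝ) ^ 2 * κ * ((N - m : ℕ) : ℝ) - a * m ≤
        (u : ℝ) ^ 2 * κ * (c₀ + 1) - δ * m := by
      have h4 : (u : ℝ) ^ 2 * κ * ((N - m : ℕ) : ℝ) ≤
          (u : ℝ) ^ 2 * κ * ((θ - 1) * m + (c₀ + 1)) := by gcongr
      rw [hδ]
      linarith
    calc A * ((N + 1) ^ (u - 1) * Real.exp (u ^ 2 * κ * (N - m : ℕ) - a * m))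
        ≤ A * ((K * (m + 1)) ^ (u - 1) * Real.exp (u ^ 2 * κ * (c₀ + 1) - δ * m)) := by
          gcongr
      _ = A * K ^ (u - 1) * ((m : ℝ) + 1) ^ (u - 1) *
          Real.exp (u ^ 2 * κ * (c₀ + 1) - δ * m) := by
          rw [mul_pow]
          ring

/-- The sum over the steps of the John path. -/
theorem sum_le {a : ℝ} (ha : 0 < a) {k₀ P₀ : ℕ} (hk : 0 < k₀) (hP : 0 < P₀) (j : ℕ) :
    ∑ i ∈ Finset.range j, Real.exp (-a) ^ (k₀ * (i / P₀)) ≤
      Real.exp a / (1 - Real.exp (-(a / P₀))) := by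
  have hP' : (0 : ℝ) < P₀ := by exact_mod_cast hP
  set ω : ℝ := Real.exp (-(a / P₀)) with hω
  have hω0 : 0 < ω := Real.exp_pos _
  have hω1 : ω < 1 := by
    rw [hω, Real.exp_lt_one_iff]
    have : 0 < a / P₀ := by positivity
    linarith
  have h1 : ∀ i : ℕ, Real.exp (-a) ^ (k₀ * (i / P₀)) ≤ Real.exp a * ω ^ i := by
    intro i
    rw [hω, ← Real.exp_nat_mul, ← Real.exp_nat_mul, ← Real.exp_add]
    apply Real.exp_le_exp.2
    have h2 : (i : ℝ) ≤ P₀ * ((i / P₀ : ℕ) + 1) := by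
      exact_mod_cast (Nat.lt_mul_div_succ i hP).le
    have h3 : ((i / P₀ : ℕ) : ℝ) ≤ ((k₀ * (i / P₀) : ℕ) : ℝ) := by
      exact_mod_cast Nat.le_mul_of_pos_left _ hk
    have h4 : (i : ℝ) / P₀ ≤ ((i / P₀ : ℕ) : ℝ) + 1 := by
      rw [div_le_iff₀ hP']
      linarith
    have h5 : (i : ℝ) * (-(a / P₀)) = -(a * ((i : ℝ) / P₀)) := by ring
    rw [h5]
    have h6 : a * ((i : ℝ) / P₀) ≤ a * (((k₀ * (i / P₀) : ℕ) : ℝ) + 1) := by
      apply mul_le_mul_of_nonneg_left _ ha.le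
      linarith
    linarith
  calc ∑ i ∈ Finset.range j, Real.exp (-a) ^ (k₀ * (i / P₀))
      ≤ ∑ i ∈ Finset.range j, Real.exp a * ω ^ i := Finset.sum_le_sum fun i _ => h1 i
    _ = Real.exp a * ∑ i ∈ Finset.range j, ω ^ i := by rw [Finset.mul_sum]
    _ ≤ Real.exp a * (1 / (1 - ω)) := by
        have h4 := Summable.sum_le_tsum (f := fun t : ℕ => ω ^ t) (Finset.range j)
          (fun t _ => by positivity) (summable_geometric_of_lt_one hω0.le hω1)
        rw [tsum_geometric_of_lt_one hω0.le hω1, ← one_div] at h4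
        gcongr
    _ = _ := by ring

theorem geo_le {θ : ℝ} (h0 : 0 < θ) (h1 : θ < 1) (j : ℕ) :
    ∑ t ∈ Finset.range j, θ ^ t ≤ 1 / (1 - θ) := by
  have h4 := Summable.sum_le_tsum (f := fun t : ℕ => θ ^ t) (Finset.range j)
    (fun t _ => by positivity) (summable_geometric_of_lt_one h0.le h1)
  rwa [tsum_geometric_of_lt_one h0.le h1, ← one_div] at h4

section Dyn

variable {M : Type v} [MetricSpace M] {f : M ≃ₜ M} {u : ℕ}
  {φ : M → EuclideanSpace ℝ (Fin u) → M} {C a b κ r r₁ e ρ η ρ₁ : ℝ} {A : Set M}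

/-- The displacement of a disc point, seen `j` steps before the time of the disc. -/
theorem nx_aux (S : Sys f u φ C a b κ r r₁ e ρ) (hc : Sc C e ρ η ρ₁) {n : ℕ} {x y : M}
    (h : Nx f φ ρ₁ n x y) (j k : ℕ) :
    dist (f.symm^[k + j] (f^[n] y)) (f.symm^[k + j] (f^[n] x)) ≤ Real.exp (-(a * j)) * η := by
  have h0 := nx_disc S hc h
  have h1 := η_le S hc
  have h2 := S.e_le_r
  have h3 := hc.η_pos
  have hC := S.C1
  have h4 : f^[n] y ∈ Wl f.symm r (f^[n] x) := Wl_mono (by linarith) h0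
  refine (S.dec_un h4 (k + j)).trans ?_
  obtain ⟨s, hs, hs'⟩ := h
  have hρ : ρ₁ ≤ ρ := by
    have := hc.ρ₁_le'
    have := hc.ρ₁_pos
    linarith
  have h5 : dist (f^[n] y) (f^[n] x) ≤ C * ρ₁ := by
    rw [hs']
    have h6 := S.upper (f^[n] x) s (closedBall_subset_closedBall hρ hs) 0 S.ρ_mem
    rw [S.zero, dist_zero_right] at h6
    rw [mem_closedBall_zero_iff] at hs
    exact h6.trans (by gcongr)
  have h7 : Real.exp (-(a * ((k + j : ℕ) : ℝ))) ≤ Real.exp (-(a * j)) := by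
    apply Real.exp_le_exp.2
    push_cast
    have h8 : 0 ≤ a * (k : ℝ) := mul_nonneg S.a_pos.le (Nat.cast_nonneg _)
    linarith
  have h9 := hc.ρ₁_le
  calc C * Real.exp (-(a * ((k + j : ℕ) : ℝ))) * dist (f^[n] y) (f^[n] x)
      ≤ C * Real.exp (-(a * j)) * (C * ρ₁) := by gcongr
    _ = Real.exp (-(a * j)) * (C ^ 2 * ρ₁) := by ring
    _ ≤ Real.exp (-(a * j)) * η := by gcongr

theorem nx_shift (S : Sys f u φ C a b κ r r₁ e ρ) (hc : Sc C e ρ η ρ₁) {t j : ℕ} {x y : M}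
    (h : Nx f φ ρ₁ (t + j) x y) : f^[t] y ∈ Wl f.symm (Real.exp (-(a * j)) * η) (f^[t] x) := by
  intro k
  have h1 := nx_aux S hc h j k
  have e1 : ∀ w : M, f.symm^[k + j] (f^[t + j] w) = f.symm^[k] (f^[t] w) := by
    intro w
    rw [iterate_add_apply, Cf.symm_iterate_iterate_of_le f (by omega : j ≤ t + j),
      Nat.add_sub_cancel]
  rwa [e1, e1] at h1

theorem nx_back (S : Sys f u φ C a b κ r r₁ e ρ) (hc : Sc C e ρ η ρ₁) {n : ℕ} (m : ℕ) {x y : M}
    (h : Nx f φ ρ₁ n x y) :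
    f.symm^[m] y ∈ Wl f.symm (Real.exp (-(a * ((m + n : ℕ) : ℝ))) * η) (f.symm^[m] x) := by
  intro k
  have h1 := nx_aux S hc h (m + n) k
  have e1 : ∀ w : M, f.symm^[k + (m + n)] (f^[n] w) = f.symm^[k] (f.symm^[m] w) := by
    intro w
    rw [← add_assoc, iterate_add_apply, Cf.symm_iterate_iterate, iterate_add_apply]
  rwa [e1, e1] at h1

/-- The discs of the next level around the points of the chains are free. -/
theorem free_rc (S : Sys f u φ C a b κ r r₁ e ρ) (hc : Sc C e ρ η ρ₁) (hA : Attr f A r)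
    {R : ℝ} (hR : 2 * C + 1 / (1 - Real.exp (-a)) ≤ R) {t i : ℕ} {x₀ p : M}
    (hF : Free f A r (R * η) (f^[t] x₀)) (h : Rc f φ ρ₁ t x₀ i p) :
    Free f A r (2 * η) (f^[t + i] p) := by
  have ha := S.a_pos
  have hη := hc.η_pos
  have hC := S.C1
  set θ : ℝ := Real.exp (-a) with hθ
  have hθ0 : 0 < θ := Real.exp_pos _
  have hθ1 : θ < 1 := by rw [hθ, Real.exp_lt_one_iff]; linarith
  have h1 : f^[t] p ∈ Wl f.symm ((∑ l ∈ Finset.range i, θ ^ l) * η) (f^[t] x₀) := by
    induction h with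
    | zero => simpa using mem_Wl_self (f := f.symm) (x := f^[t] x₀) le_rfl
    | succ j x y _ h4 ih =>
      rw [Finset.sum_range_succ, add_mul]
      refine Wl_trans ih ?_
      have h5 := nx_shift S hc h4
      have e1 : Real.exp (-(a * j)) = θ ^ j := by
        rw [hθ, ← Real.exp_nat_mul]
        congr 1
        ring
      rwa [e1] at h5
  have h2 : f^[t] p ∈ Wl f.symm (1 / (1 - θ) * η) (f^[t] x₀) :=
    Wl_mono (by gcongr; exact geo_le hθ0 hθ1 i) h1
  intro z hz
  have hr : 2 * η ≤ r := by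
    have := η_le S hc
    have := S.e_le_r
    linarith
  have h3 : f.symm^[i] z ∈ Wl f.symm (C * (2 * η)) (f^[t] p) := by
    intro k
    have h4 := S.dec_un' (Wl_mono hr hz) (k + i)
    have e1 : f.symm^[k + i] (f^[t + i] p) = f.symm^[k] (f^[t] p) := by
      rw [iterate_add_apply, Cf.symm_iterate_iterate_of_le f (by omega : i ≤ t + i),
        Nat.add_sub_cancel]
    rw [e1, iterate_add_apply] at h4
    have h5 : dist z (f^[t + i] p) ≤ 2 * η := Wl_dist hz
    exact h4.trans (by gcongr)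
  have h4 : f.symm^[i] z ∈ Wl f.symm (R * η) (f^[t] x₀) := by
    refine Wl_mono ?_ (Wl_trans h2 h3)
    calc 1 / (1 - θ) * η + C * (2 * η) = (2 * C + 1 / (1 - θ)) * η := by ring
      _ ≤ R * η := by gcongr
  exact (BasM.symm_iter_mem (fun x => BasM.inv hA x) i z).1 (hF h4)

end Dyn

end C7M

open C7M

/-- Module CORE7. -/
theorem specCore7 (hEy : SpecEyFree.{v}) (hPath : SpecPathJ.{v}) : SpecCore7.{v} := by
  intro M _ _ _ f u φ C a b κ r r₁ e ρ ρs Λ b₂ A S hA hρs hΛ hb₂ hslow hineq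
  by_contra hne
  have he := S.e_pos
  have hC := S.C1
  have hC0 : 0 < C := by linarith
  have hρ := S.ρ_pos
  have her := S.e_le_r
  have ha := S.a_pos
  have hb := S.b_pos
  have hκ := S.κ_nonneg
  set θ : ℝ := Real.exp (-a) with hθ
  have hθ0 : 0 < θ := Real.exp_pos _
  have hθ1 : θ < 1 := by rw [hθ, Real.exp_lt_one_iff]; linarith
  set R : ℝ := 2 * C + 2 + 1 / (1 - θ) with hR
  have h1θ : 0 < 1 / (1 - θ) := one_div_pos.2 (by linarith)
  have hR0 : 0 < R := by positivity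
  have hR1 : 2 * C + 1 / (1 - θ) ≤ R := by rw [hR]; linarith
  have hR2 : 2 ≤ R := by rw [hR]; linarith
  obtain ⟨η₀, hη₀, hpath⟩ := hPath f u φ C a b κ r r₁ e ρ A S hA hne R hR0
  -- the scales
  have hC5 : 0 < 1000 * C ^ 5 := by positivity
  set η : ℝ := min η₀ (min e ρ / (1000 * C ^ 5)) with hη
  have hη0 : 0 < η := by rw [hη]; positivity
  have hηmul : 1000 * C ^ 5 * η ≤ min e ρ := by
    have h1 : η ≤ min e ρ / (1000 * C ^ 5) := min_le_right _ _
    calc 1000 * C ^ 5 * η ≤ 1000 * C ^ 5 * (min e ρ / (1000 * C ^ 5)) := by gcongr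
      _ = min e ρ := by field_simp
  have hη1 : 1000 * C ^ 5 * η ≤ e := hηmul.trans (min_le_left _ _)
  have hη2 : 1000 * C ^ 5 * η ≤ ρ := hηmul.trans (min_le_right _ _)
  have hCC5 : C ≤ C ^ 5 := by
    calc C = C ^ 1 := (pow_one C).symm
      _ ≤ C ^ 5 := pow_le_pow_right₀ hC (by norm_num)
  set ρ₁ : ℝ := min (η / C ^ 2) (ρ / 2) with hρ₁
  have hρ₁0 : 0 < ρ₁ := by rw [hρ₁]; positivity
  have hc : Sc C e ρ η ρ₁ := by
    refine ⟨hη0, ?_, hρ₁0, ?_, ?_⟩
    · refine le_trans ?_ hη1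
      have : 16 * C ≤ 1000 * C ^ 5 := by nlinarith
      nlinarith
    · have h1 : ρ₁ ≤ η / C ^ 2 := min_le_left _ _
      calc C ^ 2 * ρ₁ ≤ C ^ 2 * (η / C ^ 2) := by gcongr
        _ = η := by field_simp
    · have h1 : ρ₁ ≤ ρ / 2 := min_le_right _ _
      linarith
  obtain ⟨C₁, hC₁, hey⟩ := hEy f u φ C a b κ r r₁ e ρ η ρ₁ A S hA hc hη1 hη2
  obtain ⟨k₀, P₀, x, y, hk₀, hP₀, hx, hxy, hy⟩ := hpath η (ρ₁ / 2) hη0 (min_le_left _ _)
    (by positivity)
  obtain ⟨n₀, hn₀⟩ := exists_nat_ge (2 * C ^ 3)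
  set G : ℝ := max (n₀ * C₁) (max C₁ η) with hG
  have hG1 : n₀ * C₁ ≤ G := le_max_left _ _
  have hG2 : C₁ ≤ G := (le_max_left _ _).trans (le_max_right _ _)
  have hG3 : η ≤ G := (le_max_right _ _).trans (le_max_right _ _)
  have hG0 : 0 < G := lt_of_lt_of_le hη0 hG3
  set B₁ : ℝ := Real.exp a / (1 - Real.exp (-(a / P₀))) with hB₁
  have hP₀' : (0 : ℝ) < P₀ := by exact_mod_cast hP₀
  have hB₁0 : 0 < B₁ := by
    rw [hB₁]
    have h1 : Real.exp (-(a / P₀)) < 1 := by
      rw [Real.exp_lt_one_iff]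
      have : 0 < a / P₀ := by positivity
      linarith
    exact div_pos (Real.exp_pos _) (by linarith)
  -- the path to the attractor
  have hx0 : x 0 ∈ basin f A r := by
    have h1 := (hx 0).1
    rw [Nat.zero_div, mul_zero] at h1
    exact h1 (mem_Wl_self (by positivity))
  have h16 : 0 < e / (16 * C ^ 2) := by positivity
  obtain ⟨Λ', hΛ', hp⟩ := specPaths f u φ C a b κ r r₁ e ρ ρs Λ b₂ A S hA hρs hΛ
    (hb.le.trans hb₂) hslow (e / (16 * C ^ 2)) h16 (x 0) hx0
  obtain ⟨m, N, hN1, hN2⟩ := time7 (A := G * (B₁ + 1 / (1 - θ)))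
    (B := Λ' * (C * (2 * e)) * (4 * C / η)) (t := e / (16 * C ^ 2)) hb hb₂ hκ hineq
    (by positivity) (by positivity) h16
  obtain ⟨K, q, hK, hq0, hqK, hq⟩ := hp m
  have hNi : ∀ i ≤ K, (i : ℝ) * (C * Real.exp (-(b * N)) * (2 * e)) ≤ η / (4 * C) := by
    intro i hi
    have h1 : (i : ℝ) ≤ Λ' * Real.exp (b₂ * m) := by
      have : (i : ℝ) ≤ K := by exact_mod_cast hi
      exact this.trans hK
    calc (i : ℝ) * (C * Real.exp (-(b * N)) * (2 * e))
        ≤ Λ' * Real.exp (b₂ * m) * (C * Real.exp (-(b * N)) * (2 * e)) := by gcongr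
      _ = Λ' * (C * (2 * e)) * (4 * C / η) * Real.exp (b₂ * m) * Real.exp (-(b * N)) *
          (η / (4 * C)) := by
          field_simp
      _ ≤ 1 * (η / (4 * C)) := by gcongr
      _ = η / (4 * C) := one_mul _
  set E₀ : ℝ := (N + 1) ^ (u - 1) * Real.exp (u ^ 2 * κ * (N - m : ℕ) - a * m) with hE₀
  have hE₀0 : 0 < E₀ := by positivity
  set E : ℝ := G * (B₁ + 1 / (1 - θ)) * E₀ with hE
  have hEe : E ≤ e / (16 * C ^ 2) := hN2
  have hee : e / (16 * C ^ 2) ≤ e := by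
    apply div_le_self he.le
    have : (1 : ℝ) ≤ C ^ 2 := one_le_pow₀ hC
    linarith
  have hE₀m : Real.exp (-(a * m)) ≤ E₀ := by
    rw [hE₀]
    have h3 : (1 : ℝ) ≤ ((N : ℝ) + 1) ^ (u - 1) := one_le_pow₀ (by
      have : (0 : ℝ) ≤ N := Nat.cast_nonneg _
      linarith)
    have h4 : Real.exp (-(a * m)) ≤ Real.exp (u ^ 2 * κ * (N - m : ℕ) - a * m) := by
      apply Real.exp_le_exp.2
      have : 0 ≤ (u : ℝ) ^ 2 * κ * ((N - m : ℕ) : ℝ) := by positivity
      linarith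
    calc Real.exp (-(a * m)) ≤ 1 * Real.exp (u ^ 2 * κ * (N - m : ℕ) - a * m) := by
          rw [one_mul]; exact h4
      _ ≤ _ := by gcongr
  -- powers
  have hpow : ∀ j : ℕ, Real.exp (-(a * j)) = θ ^ j := by
    intro j
    rw [hθ, ← Real.exp_nat_mul]
    congr 1
    ring
  have hbk : ∀ t : ℕ, Real.exp (-(a * ((m + t : ℕ) : ℝ))) * η ≤ G * E₀ * θ ^ t := by
    intro t
    have h1 : Real.exp (-(a * ((m + t : ℕ) : ℝ))) = Real.exp (-(a * m)) * θ ^ t := by
      rw [← hpow, ← Real.exp_add]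
      congr 1
      push_cast
      ring
    rw [h1]
    calc Real.exp (-(a * m)) * θ ^ t * η ≤ E₀ * θ ^ t * G := by gcongr
      _ = G * E₀ * θ ^ t := by ring
  have heyb : ∀ t : ℕ, C₁ * (N + 1) ^ (u - 1) *
      Real.exp (u ^ 2 * κ * (N - (m + t) : ℕ) - a * ((m + t : ℕ) : ℝ)) ≤ C₁ * E₀ * θ ^ t := by
    intro t
    have h3 : Real.exp (u ^ 2 * κ * (N - (m + t) : ℕ) - a * ((m + t : ℕ) : ℝ)) ≤
        Real.exp (u ^ 2 * κ * (N - m : ℕ) - a * m) * θ ^ t := by
      rw [← hpow, ← Real.exp_add]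
      apply Real.exp_le_exp.2
      have h4 : ((N - (m + t) : ℕ) : ℝ) ≤ ((N - m : ℕ) : ℝ) := by
        exact_mod_cast (by omega : N - (m + t) ≤ N - m)
      have h5 : (u : ℝ) ^ 2 * κ * ((N - (m + t) : ℕ) : ℝ) ≤
          (u : ℝ) ^ 2 * κ * ((N - m : ℕ) : ℝ) := by gcongr
      push_cast at h5 ⊢
      linarith
    calc C₁ * (N + 1) ^ (u - 1) *
          Real.exp (u ^ 2 * κ * (N - (m + t) : ℕ) - a * ((m + t : ℕ) : ℝ))
        ≤ C₁ * (N + 1) ^ (u - 1) *
          (Real.exp (u ^ 2 * κ * (N - m : ℕ) - a * m) * θ ^ t) := by gcongr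
      _ = C₁ * E₀ * θ ^ t := by rw [hE₀]; ring
  -- the displacements
  set T : ℕ → ℕ := fun j => k₀ * (j / P₀) with hT
  set F : ℕ → ℕ → ℝ := fun j i => G * E₀ * (∑ l ∈ Finset.range j, θ ^ (T l) +
    ∑ l ∈ Finset.range i, θ ^ l) with hF
  have hF0 : ∀ j, F (j + 1) 0 = F j 0 + G * E₀ * θ ^ (T j) := by
    intro j
    simp only [hF, Finset.range_zero, Finset.sum_empty, add_zero]
    rw [Finset.sum_range_succ]
    ring
  have hFs : ∀ j i, F j (i + 1) = F j i + G * E₀ * θ ^ i := by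
    intro j i
    simp only [hF]
    rw [Finset.sum_range_succ _ i]
    ring
  have hFE : ∀ j i, F j i ≤ E := by
    intro j i
    have h1 := sum_le ha hk₀ hP₀ j
    have h2 := geo_le hθ0 hθ1 i
    calc F j i ≤ G * E₀ * (B₁ + 1 / (1 - θ)) := by
          simp only [hF]
          gcongr
      _ = E := by rw [hE]; ring
  -- uniqueness of the stages
  have huniq : ∀ (k : ℕ) (x x' x'' : M), Lad f e q k x x' → Lad f e q k x x'' → x' = x'' :=
    fun k x x' x'' h3 h4 => (specTr f u φ C a b κ r r₁ e ρ S q k).1 x x' x''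
      (h3.mono (by linarith)) (h4.mono (by linarith))
  have hself : ∀ k ≤ K, Lad f e q k (f.symm^[m] (x 0)) (q k) := fun k hk =>
    ⟨q, hq0, rfl, fun i hi => Wl_mono hee (hq i (by omega)), fun i _ => mem_Wl_self he.le⟩
  have hnx : ∀ j, Nx f φ ρ₁ (T j) (x j) (x (j + 1)) := by
    intro j
    obtain ⟨s, hs, hs'⟩ := (hx j).2
    exact ⟨s, closedBall_subset_closedBall (by linarith) hs, hs'⟩
  have hfree : ∀ j i p, Rc f φ ρ₁ (T j) (x j) i p → Free f A r (2 * η) (f^[T j + i] p) :=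
    fun j i p h => free_rc S hc hA hR1 (hx j).1 h
  have key : ∀ k ≤ K, ∀ (j i : ℕ) (p : M), Rc f φ ρ₁ (T j) (x j) i p →
      ∃ X, Lad f e q k (f.symm^[m] p) X ∧ X ∈ Wl f.symm (F j i) (q k) := by
    intro k
    induction k with
    | zero =>
      intro _ j i p hp
      have h3 : ∀ j, f.symm^[m] (x j) ∈ Wl f.symm (F j 0) (q 0) := by
        intro j
        induction j with
        | zero =>
          rw [hq0]
          simpa [hF] using mem_Wl_self (f := f.symm) (x := f.symm^[m] (x 0)) le_rfl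
        | succ j ih =>
          rw [hF0]
          exact Wl_trans ih (Wl_mono (hbk (T j)) (nx_back S hc m (hnx j)))
      have h4 : f.symm^[m] p ∈ Wl f.symm (F j i) (q 0) := by
        induction hp with
        | zero => exact h3 j
        | succ i p p' _ h5 ih =>
          rw [hFs]
          refine Wl_trans ih (Wl_mono ?_ (nx_back S hc m h5))
          refine (hbk (T j + i)).trans ?_
          have h6 : θ ^ (T j + i) ≤ θ ^ i :=
            pow_le_pow_of_le_one hθ0.le hθ1.le (Nat.le_add_left _ _)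
          gcongr
      exact ⟨_, Lad.zero (Wl_mono (((hFE j i).trans hEe).trans hee) h4), h4⟩
    | succ k ih =>
      intro hk
      have ih := ih (by omega)
      have hex : ∀ (j i : ℕ) (p : M), Rc f φ ρ₁ (T j) (x j) i p →
          ∃ X, Lad f e q (k + 1) (f.symm^[m] p) X := by
        intro j i p hp
        obtain ⟨X, h3, h4⟩ := ih j i p hp
        exact AC.JohnM.next S le_rfl hEe (hq k (by omega)) h3 (Wl_mono (hFE j i) h4)
      -- the estimate for a half disc
      have half : ∀ (t : ℕ) (g g' X X' : M), Free f A r (2 * η) (f^[t] g) →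
          (∃ s ∈ closedBall (0 : EuclideanSpace ℝ (Fin u)) (ρ₁ / 2), f^[t] g' = φ (f^[t] g) s) →
          (∀ p', Nx f φ ρ₁ t g p' → ∃ X, Lad f e q (k + 1) (f.symm^[m] p') X) →
          Lad f e q (k + 1) (f.symm^[m] g) X → Lad f e q (k + 1) (f.symm^[m] g') X' →
          X' ∈ Wl f.symm (C₁ * E₀ * θ ^ t) X := by
        intro t g g' X X' hfr hs hD hX hX'
        obtain ⟨s, hs1, hs2⟩ := hs
        have hdom : Dom f φ e ρ₁ q (k + 1) (m + t) (f^[t] g) := by
          intro s' hs'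
          obtain ⟨Y, hY⟩ := hD (f.symm^[t] (φ (f^[t] g) s')) ⟨s', hs', iterate_symm_iterate f t _⟩
          exact ⟨Y, by rw [iterate_add_apply]; exact hY⟩
        have hρ2 : (0 : EuclideanSpace ℝ (Fin u)) ∈ closedBall 0 (ρ₁ / 2) :=
          mem_closedBall_self (by linarith)
        refine Wl_mono (heyb t) (hey q (k + 1) (m + t) N _ hfr (hNi _ hk) hdom 0 hρ2 s hs1 X X'
          ?_ ?_)
        · rw [S.zero, iterate_add_apply, Cf.symm_iterate_iterate]
          exact hX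
        · rw [← hs2, iterate_add_apply, Cf.symm_iterate_iterate]
          exact hX'
      -- along the John path
      have hj : ∀ j, ∃ X, Lad f e q (k + 1) (f.symm^[m] (x j)) X ∧
          X ∈ Wl f.symm (F j 0) (q (k + 1)) := by
        intro j
        induction j with
        | zero => exact ⟨q (k + 1), hself _ hk, by simpa [hF] using mem_Wl_self le_rfl⟩
        | succ j ihj =>
          obtain ⟨X, hX, hX'⟩ := ihj
          obtain ⟨Y, hY⟩ := hex (j + 1) 0 _ .zero
          refine ⟨Y, hY, ?_⟩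
          rw [hF0]
          refine Wl_trans hX' (Wl_mono ?_ (half (T j) (x j) (x (j + 1)) X Y ?_ (hx j).2 ?_ hX hY))
          · gcongr
          · have := hfree j 0 _ .zero
            rwa [add_zero] at this
          · intro p' hp'
            exact hex j 1 p' (.succ 0 _ _ .zero hp')
      -- inside the discs
      intro j i p hp
      induction hp with
      | zero => exact hj j
      | succ i p p' hp h4 ihp =>
        obtain ⟨X, hX, hX'⟩ := ihp
        obtain ⟨g, hg0, hg1, hg2, hg3⟩ := nx_pieces S hc hn₀ h4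
        have hgR : ∀ l ≤ n₀, Rc f φ ρ₁ (T j) (x j) (i + 1) (g l) := fun l hl =>
          .succ i p _ hp (hg2 l hl)
        have hst : ∀ l : ℕ, ∃ X', l ≤ n₀ → Lad f e q (k + 1) (f.symm^[m] (g l)) X' := by
          intro l
          by_cases hl : l ≤ n₀
          · obtain ⟨X', h5⟩ := hex _ _ _ (hgR l hl)
            exact ⟨X', fun _ => h5⟩
          · exact ⟨p, fun h => absurd h hl⟩
        choose G' hG' using hst
        set δ : ℝ := C₁ * E₀ * θ ^ (T j + i + 1) with hδ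
        have hstep : ∀ l < n₀, G' (l + 1) ∈ Wl f.symm δ (G' l) := by
          intro l hl
          refine half (T j + i + 1) (g l) (g (l + 1)) _ _ (hfree j (i + 1) _ (hgR l hl.le))
            (hg3 l hl) ?_ (hG' l hl.le) (hG' (l + 1) hl)
          intro p'' hp''
          exact hex j (i + 1 + 1) p'' (.succ (i + 1) _ _ (hgR l hl.le) hp'')
        have hsum : ∀ l ≤ n₀, G' l ∈ Wl f.symm (l * δ) (G' 0) := by
          intro l
          induction l with
          | zero => intro _; simpa using mem_Wl_self (f := f.symm) (x := G' 0) le_rfl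
          | succ l ihl =>
            intro hl
            have h5 := Wl_trans (ihl (by omega)) (hstep l hl)
            have h6 : (l : ℝ) * δ + δ = ((l + 1 : ℕ) : ℝ) * δ := by push_cast; ring
            rwa [h6] at h5
        have hX0 : G' 0 = X := huniq (k + 1) _ _ _ (by
          have := hG' 0 (Nat.zero_le _)
          rwa [hg0] at this) hX
        refine ⟨G' n₀, ?_, ?_⟩
        · have := hG' n₀ le_rfl
          rwa [hg1] at this
        · rw [hFs]
          have h5 := hsum n₀ le_rfl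
          rw [hX0] at h5
          refine Wl_trans hX' (Wl_mono ?_ h5)
          have h6 : θ ^ (T j + i + 1) ≤ θ ^ i :=
            pow_le_pow_of_le_one hθ0.le hθ1.le (by omega)
          calc n₀ * δ = (n₀ * C₁) * E₀ * θ ^ (T j + i + 1) := by rw [hδ]; ring
            _ ≤ G * E₀ * θ ^ i := by gcongr
  -- the end
  have hB : ∀ x, ∀ y ∈ Wl f e x, x ∈ basin f A r → y ∈ basin f A r := fun x y hy =>
    BasM.stab S.hyp hA x y (Wl_mono (by linarith) hy)
  have hAB : A ⊆ basin f A r := fun x hx => ⟨0, x, hx, mem_Wl_self S.r_pos.le⟩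
  have hsub : ∀ j, f.symm^[m] (x j) ∈ CoStage.St f e A K := by
    intro j
    obtain ⟨X, hX, hX'⟩ := key K le_rfl j 0 _ .zero
    refine CoStage.St_of_lad hX (hA.sat _ hqK _ (Wl_mono ?_ hX'))
    have := hFE j 0
    linarith
  have hlim : Tendsto (fun j => f.symm^[m] (x j)) atTop (𝓝 (f.symm^[m] y)) :=
    ((f.symm.continuous.iterate m).tendsto y).comp hxy
  have h1 : f.symm^[m] y ∈ CoStage.St f e A K :=
    (CoStage.isClosed_St hA.closed K).mem_of_tendsto hlim (Eventually.of_forall hsub)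
  have h2 := CoStage.St_sub hAB hB K h1
  exact hy ((BasM.symm_iter_mem (fun x => BasM.inv hA x) m y).1 h2)

end Pool.Agent.Lib.MP610fe3.T7
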